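import Mathlib

/-!
# Integer valued functions with the moments of a Weil sum: at most three values
-/

set_option autoImplicit false

namespace Pool.Agent.Lib.HelQ

open Finset

/-- The moment conditions, for a function without zeros. -/
structure Dat (p n : ℕ) {ι : Type} (T : Finset ι) (w : ι → ℤ) : Prop where
  hp : p.Prime
  hq : 2 < (p : ℤ) ^ n
  card : (T.card : ℤ) = (p : ℤ) ^ n - 1
  dvd : ∀ i ∈ T, (p : ℤ) ∣ w i
  ne : ∀ i ∈ T, w i ≠ 0
  m1 : ∑ i ∈ T, w i = (p : ℤ) ^ n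
  m2 : ∑ i ∈ T, w i ^ 2 = ((p : ℤ) ^ n) ^ 2
  m3 : ((p : ℤ) ^ n) ^ 2 ∣ ∑ i ∈ T, w i ^ 3
  m4 : ((p : ℤ) ^ n) ^ 2 ∣ ∑ i ∈ T, w i ^ 4

theorem cancel_pow {p : ℤ} (hp : p ≠ 0) (k : ℕ) {x : ℤ} (h : p ^ (k + 1) ∣ p ^ k * x) : p ∣ x := by
  rw [pow_succ] at h
  exact (mul_dvd_mul_iff_left (pow_ne_zero k hp)).1 h

theorem exists_val {p : ℕ} (hp : p.Prime) {n : ℕ} {A : ℤ} (h0 : A ≠ 0) (h1 : |A| < (p : ℤ) ^ n)
    (h2 : (p : ℤ) ∣ A) :
    ∃ (a : ℕ) (A' : ℤ), 1 ≤ a ∧ a < n ∧ A = (p : ℤ) ^ a * A' ∧ ¬ (p : ℤ) ∣ A' := by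
  have hfin : FiniteMultiplicity (p : ℤ) A := by
    rw [Int.finiteMultiplicity_iff]
    exact ⟨by rw [Int.natAbs_natCast]; exact hp.one_lt.ne', h0⟩
  obtain ⟨A', hA, hA'⟩ := hfin.exists_eq_pow_mul_and_not_dvd
  refine ⟨multiplicity (p : ℤ) A, A', ?_, ?_, hA, hA'⟩
  · by_contra hcon
    have h3 : multiplicity (p : ℤ) A = 0 := by omega
    rw [h3, pow_zero, one_mul] at hA
    exact hA' (hA ▸ h2)
  · by_contra hcon
    push Not at hcon
    have h3 : (p : ℤ) ^ n ∣ A := by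
      rw [hA]
      exact (pow_dvd_pow _ hcon).mul_right _
    have h4 := Int.le_of_dvd (abs_pos.2 h0) ((dvd_abs _ _).2 h3)
    omega

namespace Dat

variable {p n : ℕ} {ι : Type} {T : Finset ι} {w : ι → ℤ} (D : Dat p n T w)

include D

theorem pp : Prime (p : ℤ) := Nat.prime_iff_prime_int.1 D.hp

theorem p0 : (p : ℤ) ≠ 0 := D.pp.ne_zero

theorem two_le : (2 : ℤ) ≤ p := by exact_mod_cast D.hp.two_le

theorem n0 : n ≠ 0 := by
  intro h
  have := D.hq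
  rw [h, pow_zero] at this
  omega

theorem dvd_q : (p : ℤ) ∣ (p : ℤ) ^ n := dvd_pow_self _ D.n0

theorem not_dvd_q1 : ¬ (p : ℤ) ∣ (p : ℤ) ^ n - 1 := by
  intro h
  have h1 : (p : ℤ) ∣ 1 := by
    have := dvd_sub D.dvd_q h
    rwa [sub_sub_cancel] at this
  exact D.pp.not_dvd_one h1

theorem lt {i : ι} (hi : i ∈ T) : |w i| < (p : ℤ) ^ n := by
  classical
  have h1 : 1 < T.card := by
    have h2 := D.card
    have h3 := D.hq
    omega
  obtain ⟨j, hj, hji⟩ := Finset.exists_mem_ne h1 i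
  have h2 : w i ^ 2 + w j ^ 2 ≤ ((p : ℤ) ^ n) ^ 2 := by
    rw [← D.m2, ← Finset.sum_pair (f := fun k => w k ^ 2) hji.symm]
    refine Finset.sum_le_sum_of_subset_of_nonneg ?_ fun k _ _ => sq_nonneg _
    intro k hk
    rw [Finset.mem_insert, Finset.mem_singleton] at hk
    rcases hk with rfl | rfl
    · exact hi
    · exact hj
  have h3 : 0 < w j ^ 2 := by
    have := D.ne j hj
    positivity
  have h4 : 0 ≤ (p : ℤ) ^ n := by positivity
  exact abs_lt_of_sq_lt_sq (by omega) h4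

theorem sum2 (S P : ℤ) : ∑ i ∈ T, (w i ^ 2 - S * w i + P)
    = ((p : ℤ) ^ n) ^ 2 - S * (p : ℤ) ^ n + P * ((p : ℤ) ^ n - 1) := by
  rw [Finset.sum_add_distrib, Finset.sum_sub_distrib, ← Finset.mul_sum, D.m1, D.m2,
    Finset.sum_const, nsmul_eq_mul, D.card]
  ring

theorem sum3 (e1 e2 e3 : ℤ) : ∑ i ∈ T, (w i ^ 3 - e1 * w i ^ 2 + e2 * w i - e3)
    = ∑ i ∈ T, w i ^ 3 - e1 * ((p : ℤ) ^ n) ^ 2 + e2 * (p : ℤ) ^ n - e3 * ((p : ℤ) ^ n - 1) := by
  rw [Finset.sum_sub_distrib, Finset.sum_add_distrib, Finset.sum_sub_distrib, ← Finset.mul_sum,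
    ← Finset.mul_sum, D.m1, D.m2, Finset.sum_const, nsmul_eq_mul, D.card]
  ring

theorem sum4 (e1 e2 e3 e4 : ℤ) :
    ∑ i ∈ T, (w i ^ 4 - e1 * w i ^ 3 + e2 * w i ^ 2 - e3 * w i + e4)
    = ∑ i ∈ T, w i ^ 4 - e1 * ∑ i ∈ T, w i ^ 3 + e2 * ((p : ℤ) ^ n) ^ 2 - e3 * (p : ℤ) ^ n
      + e4 * ((p : ℤ) ^ n - 1) := by
  rw [Finset.sum_add_distrib, Finset.sum_sub_distrib, Finset.sum_add_distrib,
    Finset.sum_sub_distrib, ← Finset.mul_sum, ← Finset.mul_sum, ← Finset.mul_sum, D.m1, D.m2,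
    Finset.sum_const, nsmul_eq_mul, D.card]
  ring

theorem exists_pos : ∃ i ∈ T, 0 < w i := by
  by_contra hcon
  push Not at hcon
  have h1 := Finset.sum_nonpos hcon
  rw [D.m1] at h1
  have h2 := D.hq
  omega

theorem exists_neg : ∃ i ∈ T, w i < 0 := by
  by_contra hcon
  push Not at hcon
  have h1 : ∑ i ∈ T, w i * ((p : ℤ) ^ n - w i) = 0 := by
    have h2 : ∀ i ∈ T, w i * ((p : ℤ) ^ n - w i) = (p : ℤ) ^ n * w i - w i ^ 2 := by
      intro i _
      ring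
    rw [Finset.sum_congr rfl h2, Finset.sum_sub_distrib, ← Finset.mul_sum, D.m1, D.m2]
    ring
  obtain ⟨i, hi, hpos⟩ := D.exists_pos
  have h3 : 0 < ∑ i ∈ T, w i * ((p : ℤ) ^ n - w i) := by
    refine Finset.sum_pos' ?_ ⟨i, hi, ?_⟩
    · intro j hj
      have h4 := (abs_lt.1 (D.lt hj)).2
      exact mul_nonneg (hcon j hj) (by omega)
    · have h4 := (abs_lt.1 (D.lt hi)).2
      exact mul_pos hpos (by omega)
  omega

/-- One value is impossible. -/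
theorem not_one (A : ℤ) (h : ∀ i ∈ T, w i = A) : False := by
  have h1 : ((p : ℤ) ^ n - 1) * A = (p : ℤ) ^ n := by
    have h0 := D.m1
    rwa [Finset.sum_congr rfl h, Finset.sum_const, nsmul_eq_mul, D.card] at h0
  have h2 : (p : ℤ) ^ n - 1 ∣ 1 := by
    have h3 : (p : ℤ) ^ n - 1 ∣ (p : ℤ) ^ n := ⟨A, h1.symm⟩
    have := dvd_sub h3 (dvd_refl ((p : ℤ) ^ n - 1))
    rwa [sub_sub_cancel] at this
  have h3 := Int.le_of_dvd one_pos h2
  have h4 := D.hq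
  omega

/-- Two values are impossible. -/
theorem not_two (A B : ℤ) (h : ∀ i ∈ T, w i = A ∨ w i = B) : False := by
  by_cases hA : ∃ i ∈ T, w i = A
  swap
  · push Not at hA
    exact D.not_one B fun i hi => (h i hi).resolve_left (hA i hi)
  by_cases hB : ∃ i ∈ T, w i = B
  swap
  · push Not at hB
    exact D.not_one A fun i hi => (h i hi).resolve_right (hB i hi)
  obtain ⟨i, hi, rfl⟩ := hA
  obtain ⟨j, hj, rfl⟩ := hB
  have h1 := D.sum2 (w i + w j) (w i * w j)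
  rw [Finset.sum_eq_zero] at h1
  swap
  · intro k hk
    rcases h k hk with h2 | h2 <;> rw [h2] <;> ring
  obtain ⟨a, A', ha1, han, hA, hA'⟩ := exists_val D.hp (D.ne i hi) (D.lt hi) (D.dvd i hi)
  obtain ⟨b, B', hb1, hbn, hB, hB'⟩ := exists_val D.hp (D.ne j hj) (D.lt hj) (D.dvd j hj)
  have h2 : (p : ℤ) ^ (a + b + 1) ∣ (p : ℤ) ^ (a + b) * (A' * B' * ((p : ℤ) ^ n - 1)) := by
    have h3 : (p : ℤ) ^ (a + b) * (A' * B' * ((p : ℤ) ^ n - 1))
        = (p : ℤ) ^ n * w i + (p : ℤ) ^ n * w j - (p : ℤ) ^ n * (p : ℤ) ^ n := by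
      have h4 : (p : ℤ) ^ (a + b) * (A' * B' * ((p : ℤ) ^ n - 1))
          = w i * w j * ((p : ℤ) ^ n - 1) := by
        rw [hA, hB, pow_add]
        ring
      rw [h4]
      linear_combination -h1
    rw [h3]
    refine dvd_sub (dvd_add ?_ ?_) ?_
    · rw [hA, ← mul_assoc, ← pow_add]
      exact (pow_dvd_pow _ (by omega)).mul_right _
    · rw [hB, ← mul_assoc, ← pow_add]
      exact (pow_dvd_pow _ (by omega)).mul_right _
    · rw [← pow_add]
      exact pow_dvd_pow _ (by omega)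
  have h3 := cancel_pow D.p0 _ h2
  rcases D.pp.dvd_or_dvd h3 with h4 | h4
  · rcases D.pp.dvd_or_dvd h4 with h5 | h5
    · exact hA' h5
    · exact hB' h5
  · exact D.not_dvd_q1 h4

/-- The valuations of three values. -/
theorem val_three {x y z : ℤ} (hV : ∀ i ∈ T, w i = x ∨ w i = y ∨ w i = z) {a b c : ℕ}
    {x' y' z' : ℤ} (ha : a < n) (hb : b < n) (hc : c < n) (hx : x = (p : ℤ) ^ a * x')
    (hy : y = (p : ℤ) ^ b * y') (hz : z = (p : ℤ) ^ c * z') (hx' : ¬ (p : ℤ) ∣ x')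
    (hy' : ¬ (p : ℤ) ∣ y') (hz' : ¬ (p : ℤ) ∣ z') : 2 * n ≤ a + b + c := by
  by_contra hcon
  have h1 := D.sum3 (x + y + z) (x * y + x * z + y * z) (x * y * z)
  rw [Finset.sum_eq_zero] at h1
  swap
  · intro k hk
    rcases hV k hk with h2 | h2 | h2 <;> rw [h2] <;> ring
  have h2 : (p : ℤ) ^ (a + b + c + 1) ∣
      (p : ℤ) ^ (a + b + c) * (x' * y' * z' * ((p : ℤ) ^ n - 1)) := by
    have h3 : (p : ℤ) ^ (a + b + c) * (x' * y' * z' * ((p : ℤ) ^ n - 1))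
        = ∑ i ∈ T, w i ^ 3 - (x + y + z) * ((p : ℤ) ^ n) ^ 2 + (p : ℤ) ^ n * (x * y)
          + (p : ℤ) ^ n * (x * z) + (p : ℤ) ^ n * (y * z) := by
      have h4 : (p : ℤ) ^ (a + b + c) * (x' * y' * z' * ((p : ℤ) ^ n - 1))
          = x * y * z * ((p : ℤ) ^ n - 1) := by
        rw [hx, hy, hz, pow_add, pow_add]
        ring
      rw [h4]
      linear_combination h1
    rw [h3]
    have h5 : (p : ℤ) ^ (a + b + c + 1) ∣ ((p : ℤ) ^ n) ^ 2 := by
      rw [← pow_mul]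
      exact pow_dvd_pow _ (by omega)
    refine dvd_add (dvd_add (dvd_add (dvd_sub (h5.trans D.m3) (h5.mul_left _)) ?_) ?_) ?_
    · have : (p : ℤ) ^ n * (x * y) = (p : ℤ) ^ (n + a + b) * (x' * y') := by
        rw [hx, hy, pow_add, pow_add]; ring
      rw [this]
      exact (pow_dvd_pow _ (by omega)).mul_right _
    · have : (p : ℤ) ^ n * (x * z) = (p : ℤ) ^ (n + a + c) * (x' * z') := by
        rw [hx, hz, pow_add, pow_add]; ring
      rw [this]
      exact (pow_dvd_pow _ (by omega)).mul_right _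
    · have : (p : ℤ) ^ n * (y * z) = (p : ℤ) ^ (n + b + c) * (y' * z') := by
        rw [hy, hz, pow_add, pow_add]; ring
      rw [this]
      exact (pow_dvd_pow _ (by omega)).mul_right _
  have h3 := cancel_pow D.p0 _ h2
  rcases D.pp.dvd_or_dvd h3 with h4 | h4
  · rcases D.pp.dvd_or_dvd h4 with h5 | h5
    · rcases D.pp.dvd_or_dvd h5 with h6 | h6
      · exact hx' h6
      · exact hy' h6
    · exact hz' h5
  · exact D.not_dvd_q1 h4

/-- The product of two values of opposite sign, with small absolute value. -/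
theorem exp_le {x y : ℤ} {a b : ℕ} {x' y' : ℤ} (hx : x = (p : ℤ) ^ a * x')
    (hy : y = (p : ℤ) ^ b * y') (h0 : 0 < -(x * y)) (h : -(x * y) < 2 * (p : ℤ) ^ n) :
    a + b ≤ n := by
  by_contra hcon
  have h1 : (p : ℤ) ^ (a + b) ∣ -(x * y) := by
    rw [hx, hy, pow_add]
    exact ⟨-(x' * y'), by ring⟩
  have h2 := Int.le_of_dvd h0 h1
  have h3 : (p : ℤ) ^ (n + 1) ≤ (p : ℤ) ^ (a + b) :=
    pow_le_pow_right₀ (by have := D.two_le; omega) (by omega)
  rw [pow_succ] at h3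
  have h4 := D.two_le
  have h5 := D.hq
  nlinarith

/-- Three values are impossible. -/
theorem not_three (x y z : ℤ) (hxy : x < y) (hyz : y < z)
    (hV : ∀ i ∈ T, w i = x ∨ w i = y ∨ w i = z) (hx : ∃ i ∈ T, w i = x)
    (hy : ∃ i ∈ T, w i = y) (hz : ∃ i ∈ T, w i = z) : False := by
  have hx0 : x < 0 := by
    obtain ⟨i, hi, h⟩ := D.exists_neg
    rcases hV i hi with h1 | h1 | h1 <;> omega
  have hz0 : 0 < z := by
    obtain ⟨i, hi, h⟩ := D.exists_pos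
    rcases hV i hi with h1 | h1 | h1 <;> omega
  obtain ⟨ix, hix, hx⟩ := hx
  obtain ⟨iy, hiy, hy⟩ := hy
  obtain ⟨iz, hiz, hz⟩ := hz
  have hbx := abs_lt.1 (D.lt hix)
  have hby := abs_lt.1 (D.lt hiy)
  have hbz := abs_lt.1 (D.lt hiz)
  have hy0 := D.ne iy hiy
  obtain ⟨a, x', ha1, han, hxa, hx'⟩ := exists_val D.hp (D.ne ix hix) (D.lt hix) (D.dvd ix hix)
  obtain ⟨b, y', hb1, hbn, hyb, hy'⟩ := exists_val D.hp (D.ne iy hiy) (D.lt hiy) (D.dvd iy hiy)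
  obtain ⟨c, z', hc1, hcn, hzc, hz'⟩ := exists_val D.hp (D.ne iz hiz) (D.lt hiz) (D.dvd iz hiz)
  rw [hx] at hxa hbx
  rw [hy] at hyb hby hy0
  rw [hz] at hzc hbz
  have hval := D.val_three hV han hbn hcn hxa hyb hzc hx' hy' hz'
  have hq := D.hq
  rcases lt_or_gt_of_ne hy0 with hneg | hpos
  · -- `x < y < 0 < z`
    have h1 : 0 < ∑ i ∈ T, (w i ^ 2 - (y + z) * w i + y * z) := by
      refine Finset.sum_pos' ?_ ⟨ix, hix, ?_⟩
      · intro i hi
        rcases hV i hi with h2 | h2 | h2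
        · rw [h2]; nlinarith
        · rw [h2]; nlinarith
        · rw [h2]; nlinarith
      · rw [hx]; nlinarith
    rw [D.sum2] at h1
    have h2 : -(y * z) < 2 * (p : ℤ) ^ n := by
      by_contra hcon
      push Not at hcon
      have h3 : (p : ℤ) ^ n * ((p : ℤ) ^ n - y - z) ≤ (p : ℤ) ^ n * (2 * (p : ℤ) ^ n - 2) :=
        mul_le_mul_of_nonneg_left (by omega) (by omega)
      have h4 : 2 * (p : ℤ) ^ n * ((p : ℤ) ^ n - 1) ≤ -(y * z) * ((p : ℤ) ^ n - 1) :=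
        mul_le_mul_of_nonneg_right hcon (by omega)
      nlinarith
    have h3 := D.exp_le hyb hzc (by nlinarith) h2
    omega
  · have h1 : 0 < ∑ i ∈ T, (w i ^ 2 - (x + y) * w i + x * y) := by
      refine Finset.sum_pos' ?_ ⟨iz, hiz, ?_⟩
      · intro i hi
        rcases hV i hi with h2 | h2 | h2
        · rw [h2]; nlinarith
        · rw [h2]; nlinarith
        · rw [h2]; nlinarith
      · rw [hz]; nlinarith
    rw [D.sum2] at h1
    have h2 : -(x * y) < 2 * (p : ℤ) ^ n := by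
      by_contra hcon
      push Not at hcon
      have h3 : (p : ℤ) ^ n * ((p : ℤ) ^ n - x - y) ≤ (p : ℤ) ^ n * (2 * (p : ℤ) ^ n - 2) :=
        mul_le_mul_of_nonneg_left (by omega) (by omega)
      have h4 : 2 * (p : ℤ) ^ n * ((p : ℤ) ^ n - 1) ≤ -(x * y) * ((p : ℤ) ^ n - 1) :=
        mul_le_mul_of_nonneg_right hcon (by omega)
      nlinarith
    have h3 := D.exp_le hxa hyb (by nlinarith) h2
    omega

end Dat

end Pool.Agent.Lib.HelQ
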