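import Pool.Agent.Lib.HelQ.Arith

/-!
# Integer valued functions with the moments of a Weil sum: the core of the four-valued case
-/

set_option autoImplicit false

namespace Pool.Agent.Lib.HelQ

open Finset

theorem pow_le_of_dvd {p : ℤ} (hp : 2 ≤ p) {a b : ℕ} (h : p ^ a ∣ p ^ b) : a ≤ b := by
  have h1 : p.natAbs ^ a ∣ p.natAbs ^ b := by
    have := Int.natAbs_dvd_natAbs.2 h
    rwa [Int.natAbs_pow, Int.natAbs_pow] at this
  exact (Nat.pow_dvd_pow_iff_le_right (by omega)).1 h1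

theorem coprime_pow {p : ℕ} (hp : p.Prime) {x : ℤ} (h : ¬ (p : ℤ) ∣ x) (k : ℕ) :
    IsCoprime ((p : ℤ) ^ k) x :=
  ((Nat.prime_iff_prime_int.1 hp).irreducible.coprime_iff_not_dvd.2 h).pow_left

theorem exists_two_pow {u : ℤ} (hu : 0 < u) {N : ℕ} (h : u ∣ 2 ^ N) : ∃ j : ℕ, u = 2 ^ j := by
  have h1 : u.natAbs ∣ 2 ^ N := by
    have := Int.natAbs_dvd_natAbs.2 h
    rwa [Int.natAbs_pow] at this
  obtain ⟨j, -, hj⟩ := (Nat.dvd_prime_pow Nat.prime_two).1 h1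
  refine ⟨j, ?_⟩
  have h2 : (u.natAbs : ℤ) = u := Int.natAbs_of_nonneg hu.le
  rw [← h2, hj]
  push_cast
  rfl

theorem two_mul_le_of_lt {u z : ℤ} {i j : ℕ} (hu : u = 2 ^ j) (hz : z = 2 ^ i) (h : u < z) :
    2 * u ≤ z := by
  rw [hu, hz] at h
  have h1 : j < i := (pow_lt_pow_iff_right₀ (by norm_num)).1 h
  rw [hu, hz, ← pow_succ']
  exact pow_le_pow_right₀ (by norm_num) h1

theorem core_pos {p : ℕ} (hp : p.Prime) {n : ℕ} {S X Y D : ℤ} {a g m : ℕ}
    (hpD : ¬ (p : ℤ) ∣ D) (hX0 : 0 < X) (hY0 : 0 < Y)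
    (hXY : X + Y = (p : ℤ) ^ g) (hX : (p : ℤ) ^ a ∣ X) (hX' : ¬ (p : ℤ) ^ (a + 1) ∣ X)
    (hq1 : ¬ (p : ℤ) ∣ (p : ℤ) ^ n - 1) (hm : (p : ℤ) ^ m ∣ S) (hma : a + 1 ≤ n + m) (hmn : m < n)
    (hk : D * (p : ℤ) ^ g ∣ ((p : ℤ) ^ n) ^ 2 - S * (p : ℤ) ^ n + D * X * ((p : ℤ) ^ n - 1)) :
    False := by
  have hp2 : (2 : ℤ) ≤ p := by exact_mod_cast hp.two_le
  have h1 : (p : ℤ) ^ a < (p : ℤ) ^ g := by
    have := Int.le_of_dvd hX0 hX
    omega
  have h2 : a < g := (pow_lt_pow_iff_right₀ (by omega)).1 h1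
  have h3 : (p : ℤ) ^ (a + 1) ∣ D * X * ((p : ℤ) ^ n - 1) := by
    have h4 : (p : ℤ) ^ (a + 1) ∣ ((p : ℤ) ^ n) ^ 2 - S * (p : ℤ) ^ n
        + D * X * ((p : ℤ) ^ n - 1) :=
      ((pow_dvd_pow (p : ℤ) h2).mul_left D).trans hk
    have h5 : (p : ℤ) ^ (a + 1) ∣ ((p : ℤ) ^ n) ^ 2 - S * (p : ℤ) ^ n := by
      refine dvd_sub ?_ ?_
      · rw [← pow_mul]
        exact pow_dvd_pow _ (by omega)
      · refine (pow_dvd_pow (p : ℤ) hma).trans ?_
        rw [add_comm n m, pow_add]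
        exact mul_dvd_mul_right hm _
    have h6 := dvd_sub h4 h5
    rwa [add_sub_cancel_left] at h6
  have h4 := (coprime_pow hp hq1 (a + 1)).dvd_of_dvd_mul_right h3
  exact hX' ((coprime_pow hp hpD (a + 1)).dvd_of_dvd_mul_left h4)

/-- The case of equal valuations. -/
theorem core_eq {p : ℕ} (hp : p.Prime) {n : ℕ} {S X Y D : ℤ} {a g : ℕ}
    (hq : 2 < (p : ℤ) ^ n) (hD : 1 ≤ D) (hXY : -X + Y = (p : ℤ) ^ g) (hX0 : 0 < X)
    (hX : (p : ℤ) ^ a ∣ X) (hY : (p : ℤ) ^ a ∣ Y) (hY' : ¬ (p : ℤ) ^ (a + 1) ∣ Y)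
    (han : n ≤ a) (hpS : (p : ℤ) ∣ S) (hDX : D * X < 2 * (p : ℤ) ^ n)
    (hk : D * (p : ℤ) ^ g ∣ ((p : ℤ) ^ n) ^ 2 - S * (p : ℤ) ^ n - D * X * ((p : ℤ) ^ n - 1))
    {x y u z : ℤ} (hxz : x * z = -(D * Y)) (hyu : y * u = -(D * X)) (hs : x + z = y + u) :
    False := by
  have hp2 : (2 : ℤ) ≤ p := by exact_mod_cast hp.two_le
  have hnX : (p : ℤ) ^ n ∣ X := (pow_dvd_pow _ han).trans hX
  have h1 := Int.le_of_dvd hX0 hnX
  have hD1 : D = 1 := by
    by_contra hcon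
    have h2 : 2 ≤ D := by omega
    nlinarith
  subst hD1
  have hXq : X = (p : ℤ) ^ n := by
    obtain ⟨k, hk⟩ := hnX
    have h2 : 0 < k := by
      by_contra hcon
      push Not at hcon
      nlinarith
    have h3 : k < 2 := by
      by_contra hcon
      push Not at hcon
      nlinarith
    have h4 : k = 1 := by omega
    rw [hk, h4, mul_one]
  subst hXq
  have h2 : (p : ℤ) ^ g ∣ (p : ℤ) ^ n * (1 - S) := by
    have h3 : (p : ℤ) ^ n * (1 - S)
        = ((p : ℤ) ^ n) ^ 2 - S * (p : ℤ) ^ n - 1 * (p : ℤ) ^ n * ((p : ℤ) ^ n - 1) := by ring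
    rw [h3]
    rwa [one_mul] at hk
  have h3 : ¬ (p : ℤ) ∣ 1 - S := by
    intro h
    have h4 := dvd_add h hpS
    rw [sub_add_cancel] at h4
    exact (Nat.prime_iff_prime_int.1 hp).not_dvd_one h4
  have h4 := (coprime_pow hp h3 g).dvd_of_dvd_mul_right h2
  have h5 := pow_le_of_dvd hp2 h4
  have h6 : (p : ℤ) ^ n ∣ (p : ℤ) ^ g := by
    rw [← hXY]
    exact dvd_add ((dvd_neg).2 dvd_rfl) ((pow_dvd_pow _ han).trans hY)
  have h7 := pow_le_of_dvd hp2 h6
  have hgn : g = n := le_antisymm h5 h7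
  subst hgn
  have hYq : Y = 2 * (p : ℤ) ^ g := by linarith
  have hag : a ≤ g := pow_le_of_dvd hp2 hX
  have hag' : a = g := le_antisymm hag han
  subst hag'
  rcases hp.eq_two_or_odd' with rfl | hodd
  · apply hY'
    rw [hYq, pow_succ']
    push_cast
    exact dvd_rfl
  · have hqo : Odd ((p : ℤ) ^ a) := by
      refine Odd.pow ?_
      exact_mod_cast hodd
    have h8 : Odd (y * u) := by
      rw [hyu, one_mul]
      exact hqo.neg
    rw [Int.odd_mul] at h8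
    have h9 : Even (x + z) := by
      rw [hs]
      exact h8.1.add_odd h8.2
    have h10 : Even (x * z) := by
      rw [hxz, hYq, one_mul]
      exact ((even_two_mul _)).neg
    have h11 : Even x ∧ Even z := by
      rw [Int.even_mul] at h10
      rw [Int.even_add] at h9
      tauto
    obtain ⟨x', hx'⟩ := h11.1
    obtain ⟨z', hz'⟩ := h11.2
    rw [hx', hz', hYq, one_mul] at hxz
    have h12 : Even ((p : ℤ) ^ a) := ⟨-(x' * z'), by linarith⟩
    exact (Int.not_even_iff_odd.2 hqo) h12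

/-- The case of characteristic two. -/
theorem core_two {n : ℕ} {S X Y D : ℤ} {a : ℕ}
    (hq : 2 < (2 : ℤ) ^ n) (hD : 1 ≤ D) (hXY : Y = X + 2 ^ a) (hX0 : 0 < X)
    (hY : (2 : ℤ) ^ (n + 1) ∣ Y) (ha1 : n ≤ a + 1) (ha2 : a ≤ n)
    (hDX : D * X < 2 * (2 : ℤ) ^ n)
    (hI : D * X * ((2 : ℤ) ^ n - 1) < (2 : ℤ) ^ n * ((2 : ℤ) ^ n - S))
    {x y u z : ℤ} (hxz : x * z = -(D * Y)) (hyu : y * u = -(D * X)) (hs : x + z = S)
    (hxy : x < y) (hyu' : y < u) (huz : u < z) (hx : -(2 : ℤ) ^ n < x) (hx0 : x < 0) (hz0 : 0 < z)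
    (hzp : (2 : ℤ) ∣ z) : False := by
  have hYq : Y = 2 * (2 : ℤ) ^ n := by
    have h1 : (2 : ℤ) ^ a ≤ 2 ^ n := pow_le_pow_right₀ (by norm_num) ha2
    have h2 : X ≤ D * X := by nlinarith
    obtain ⟨k, hk⟩ := hY
    rw [pow_succ] at hk
    have h3 : 0 < Y := by
      rw [hXY]
      positivity
    have h4 : 0 < k := by
      by_contra hcon
      push Not at hcon
      nlinarith
    have h5 : k < 2 := by
      by_contra hcon
      push Not at hcon
      nlinarith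
    have h6 : k = 1 := by omega
    rw [hk, h6]
    ring
  have han : a = n ∨ a + 1 = n := by omega
  rcases han with rfl | han
  · have hXq : X = 2 ^ a := by linarith
    have hD1 : D = 1 := by
      by_contra hcon
      have h2 : 2 ≤ D := by omega
      nlinarith
    subst hD1
    rw [one_mul, hXq] at hyu
    rw [one_mul, hYq] at hxz
    have hy0 : y < 0 := by
      by_contra hcon
      push Not at hcon
      have : 0 ≤ y * u := mul_nonneg hcon (by omega)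
      omega
    have hu0 : 0 < u := by
      by_contra hcon
      push Not at hcon
      have : 0 ≤ y * u := mul_nonneg_of_nonpos_of_nonpos hy0.le hcon
      omega
    obtain ⟨i, hi⟩ := exists_two_pow hz0 (N := a + 1) ⟨-x, by rw [pow_succ]; linarith⟩
    obtain ⟨j, hj⟩ := exists_two_pow hu0 (N := a) ⟨-y, by linarith⟩
    obtain ⟨k, hk⟩ := exists_two_pow (neg_pos.2 hx0) (N := a + 1) ⟨z, by rw [pow_succ]; linarith⟩
    obtain ⟨l, hl⟩ := exists_two_pow (neg_pos.2 hy0) (N := a) ⟨u, by linarith⟩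
    have h1 := two_mul_le_of_lt hj hi huz
    have h2 := two_mul_le_of_lt hl hk (by omega)
    have h3 : (2 * u) * (2 * -y) ≤ z * -x := mul_le_mul h1 h2 (by omega) (by omega)
    nlinarith
  · subst han
    have h2a : (2 : ℤ) ^ (a + 1) = 2 * 2 ^ a := pow_succ' _ _
    rw [h2a] at hq hDX hI hx hYq
    have hXq : X = 3 * 2 ^ a := by linarith
    have hD1 : D = 1 := by
      by_contra hcon
      have h2 : 2 ≤ D := by omega
      nlinarith
    subst hD1
    rw [one_mul, hYq] at hxz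
    rw [hXq] at hI
    have hz3 : 3 ≤ z := by
      by_contra hcon
      have h3 : z ≤ 2 := by omega
      nlinarith
    have hz4 : 4 ≤ z := by
      obtain ⟨t, ht⟩ := hzp
      omega
    have h4 : 4 * -x ≤ z * -x := mul_le_mul_of_nonneg_right hz4 (by omega)
    have h5 : 2 * -x ≤ 2 * 2 ^ a := by nlinarith
    have h6 : 8 - 2 * 2 ^ a ≤ 2 * S := by omega
    have h7 : 0 < (2 : ℤ) ^ a := by positivity
    have h8 : 3 * (2 * (2 : ℤ) ^ a - 1) < 2 * (2 * 2 ^ a - S) := by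
      by_contra hcon
      push Not at hcon
      nlinarith
    omega

end Pool.Agent.Lib.HelQ
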