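import Pool.Agent.Lib.HQ.Sum

/-!
# Weil sums of an invertible exponent: moments, integrality, squares

`W p L s a` is the sum of `psi (x ^ s - a x)`. With `(c u) ^ s = u ^ s + (1 - u) ^ s` one has
`W a ^ 2 = ∑ u, W (a / c u)`.
-/

set_option autoImplicit false

namespace Pool.Agent.Lib.HelQ

open Finset Pool.Agent.Lib.HQ

section Pow

variable {L : Type} [Field L] [Fintype L]

theorem exp_ne_zero (s : ℕ) (hq : 2 < Fintype.card L)
    (hs : Nat.Coprime s (Fintype.card L - 1)) : s ≠ 0 := by
  rintro rfl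
  rw [Nat.coprime_zero_left] at hs
  omega

theorem pow_inj (s : ℕ) (hq : 2 < Fintype.card L)
    (hs : Nat.Coprime s (Fintype.card L - 1)) : Function.Injective (fun x : L => x ^ s) := by
  have hs0 := exp_ne_zero (L := L) s hq hs
  intro x y h
  simp only at h
  by_cases hy : y = 0
  · subst hy
    rw [zero_pow hs0] at h
    exact (pow_eq_zero_iff hs0).1 h
  · have hx : x ≠ 0 := by
      rintro rfl
      rw [zero_pow hs0] at h
      exact hy ((pow_eq_zero_iff hs0).1 h.symm)
    have h1 : (x / y) ^ s = 1 := by rw [div_pow, h, div_self (pow_ne_zero _ hy)]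
    have h2 : (x / y) ^ (Fintype.card L - 1) = 1 :=
      FiniteField.pow_card_sub_one_eq_one _ (div_ne_zero hx hy)
    have h3 : orderOf (x / y) ∣ 1 := by
      rw [← Nat.coprime_iff_gcd_eq_one.1 hs]
      exact Nat.dvd_gcd (orderOf_dvd_of_pow_eq_one h1) (orderOf_dvd_of_pow_eq_one h2)
    have h4 : x / y = 1 := by
      rw [Nat.dvd_one] at h3
      exact orderOf_eq_one_iff.1 h3
    exact (div_eq_one_iff_eq hy).1 h4

theorem pow_bij (s : ℕ) (hq : 2 < Fintype.card L)
    (hs : Nat.Coprime s (Fintype.card L - 1)) : Function.Bijective (fun x : L => x ^ s) :=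
  Finite.injective_iff_bijective.1 (pow_inj s hq hs)

theorem neg_pow_s (p : ℕ) (hp : p.Prime) [CharP L p] (s : ℕ) (h1 : s ≡ 1 [MOD p - 1]) (x : L) :
    (-x) ^ s = -x ^ s := by
  rcases hp.eq_two_or_odd' with rfl | hodd
  · rw [CharTwo.neg_eq, CharTwo.neg_eq]
  · have h2 : s % 2 = 1 := by
      have h3 : 2 ∣ p - 1 := by
        obtain ⟨k, hk⟩ := hodd
        exact ⟨k, by omega⟩
      have h4 : s ≡ 1 [MOD 2] := h1.of_dvd h3
      exact h4
    exact (Nat.odd_iff.2 h2).neg_pow x

theorem zmod_pow_s (p : ℕ) [Fact p.Prime] (s : ℕ) (hs : s ≠ 0) (h1 : s ≡ 1 [MOD p - 1])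
    (k : ZMod p) : k ^ s = k := by
  by_cases hk : k = 0
  · rw [hk, zero_pow hs]
  · obtain ⟨t, ht⟩ := (Nat.modEq_iff_dvd' (Nat.one_le_iff_ne_zero.2 hs)).1 h1.symm
    have h2 : s = (p - 1) * t + 1 := by omega
    rw [h2, pow_succ, pow_mul, ZMod.pow_card_sub_one_eq_one hk, one_pow, one_mul]

end Pow

variable (p : ℕ) [Fact p.Prime] (L : Type) [Field L] [Fintype L] [Algebra (ZMod p) L]

/-- The Weil sum. -/
noncomputable def W (s : ℕ) (a : L) : ℂ := ∑ x : L, psi p L (x ^ s - a * x)

theorem sum_lin [DecidableEq L] (z : L) :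
    ∑ a : L, psi p L (a * z) = if z = 0 then (Fintype.card L : ℂ) else 0 := by
  rw [AddChar.sum_mulShift z (AddChar.IsPrimitive.of_ne_one (psi_ne_one p L))]
  split_ifs <;> simp

theorem sum_pow [DecidableEq L] (s : ℕ) (hb : Function.Bijective (fun x : L => x ^ s)) (t : L) :
    ∑ y : L, psi p L (y ^ s * t) = if t = 0 then (Fintype.card L : ℂ) else 0 := by
  rw [← sum_lin p L t]
  exact Fintype.sum_bijective (fun x : L => x ^ s) hb _ _ (fun x => rfl)

theorem W_zero (s : ℕ) (hb : Function.Bijective (fun x : L => x ^ s)) : W p L s 0 = 0 := by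
  classical
  have h := sum_pow p L s hb 1
  rw [if_neg one_ne_zero] at h
  rw [W, ← h]
  exact Finset.sum_congr rfl fun x _ => by rw [zero_mul, sub_zero, mul_one]

theorem sum_W (s : ℕ) (hs0 : s ≠ 0) (c : L) (hc : c ≠ 0) :
    ∑ a : L, W p L s (a * c) = (Fintype.card L : ℂ) := by
  classical
  simp only [W]
  rw [Finset.sum_comm]
  have h : ∀ x : L, ∑ a : L, psi p L (x ^ s - a * c * x)
      = if x = 0 then (Fintype.card L : ℂ) else 0 := by
    intro x
    have h1 : ∀ a : L, psi p L (x ^ s - a * c * x) = psi p L (x ^ s) * psi p L (a * (-(c * x))) := by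
      intro a
      rw [← AddChar.map_add_eq_mul]
      congr 1
      ring
    rw [Finset.sum_congr rfl fun a _ => h1 a, ← Finset.mul_sum, sum_lin]
    by_cases hx : x = 0
    · subst hx
      simp [hs0]
    · have h2 : -(c * x) ≠ 0 := neg_ne_zero.2 (mul_ne_zero hc hx)
      rw [if_neg h2, if_neg hx, mul_zero]
  rw [Finset.sum_congr rfl fun x _ => h x]
  simp

theorem sum_WW [DecidableEq L] (s : ℕ) (hb : Function.Bijective (fun x : L => x ^ s))
    (hneg : ∀ x : L, (-x) ^ s = -x ^ s) (c : L) :
    ∑ a : L, W p L s a * W p L s (a * c) = if c = 1 then (Fintype.card L : ℂ) ^ 2 else 0 := by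
  have h0 : ∀ a : L, W p L s a * W p L s (a * c)
      = ∑ y : L, ∑ x : L, psi p L (x ^ s + y ^ s) * psi p L (a * (-(x + c * y))) := by
    intro a
    simp only [W]
    rw [Finset.sum_mul_sum, Finset.sum_comm]
    refine Finset.sum_congr rfl fun y _ => Finset.sum_congr rfl fun x _ => ?_
    rw [← AddChar.map_add_eq_mul, ← AddChar.map_add_eq_mul]
    congr 1
    ring
  have h1 : ∑ a : L, W p L s a * W p L s (a * c)
      = ∑ y : L, ∑ x : L, psi p L (x ^ s + y ^ s) * (∑ a : L, psi p L (a * (-(x + c * y)))) := by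
    rw [Finset.sum_congr rfl fun a _ => h0 a, Finset.sum_comm]
    refine Finset.sum_congr rfl fun y _ => ?_
    rw [Finset.sum_comm]
    exact Finset.sum_congr rfl fun x _ => (Finset.mul_sum _ _ _).symm
  have h2 : ∀ y : L, ∑ x : L, psi p L (x ^ s + y ^ s) * (∑ a : L, psi p L (a * (-(x + c * y))))
      = (Fintype.card L : ℂ) * psi p L (y ^ s * (1 - c ^ s)) := by
    intro y
    rw [Finset.sum_eq_single (-(c * y))]
    · rw [sum_lin, if_pos (by ring), mul_comm, hneg, mul_pow]
      congr 2
      linear_combination (0 : L)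
    · intro x _ hx
      rw [sum_lin, if_neg, mul_zero]
      intro h
      apply hx
      linear_combination -h
    · intro h
      exact absurd (Finset.mem_univ _) h
  rw [h1, Finset.sum_congr rfl fun y _ => h2 y, ← Finset.mul_sum, sum_pow p L s hb]
  by_cases hc : c = 1
  · rw [if_pos hc, if_pos (by rw [hc, one_pow, sub_self])]
    ring
  · rw [if_neg hc, if_neg, mul_zero]
    intro h
    apply hc
    apply hb.1
    simp only [one_pow]
    linear_combination -h

theorem c_ne_zero (s : ℕ) (hs0 : s ≠ 0) (hb : Function.Bijective (fun x : L => x ^ s))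
    (hneg : ∀ x : L, (-x) ^ s = -x ^ s) (c : L → L)
    (hc : ∀ u, c u ^ s = u ^ s + (1 - u) ^ s) (u : L) : c u ≠ 0 := by
  intro h
  have h1 := hc u
  rw [h, zero_pow hs0] at h1
  have h2 : u ^ s = (-(1 - u)) ^ s := by
    rw [hneg]
    linear_combination -h1
  have h3 : u = -(1 - u) := hb.1 h2
  have h4 : (0 : L) = 1 := by linear_combination -h3
  exact zero_ne_one h4

theorem W_sq (s : ℕ) (hs0 : s ≠ 0) (hb : Function.Bijective (fun x : L => x ^ s))
    (hneg : ∀ x : L, (-x) ^ s = -x ^ s) (c : L → L)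
    (hc : ∀ u, c u ^ s = u ^ s + (1 - u) ^ s) (a : L) :
    W p L s a ^ 2 = ∑ u : L, W p L s (a * (c u)⁻¹) := by
  classical
  have h0 : W p L s a ^ 2 = ∑ z : L, ∑ x : L, psi p L (x ^ s + (z - x) ^ s - a * z) := by
    rw [sq, W, Finset.sum_mul_sum, Finset.sum_comm (s := (univ : Finset L)) (t := univ)
      (f := fun z x => psi p L (x ^ s + (z - x) ^ s - a * z))]
    refine Finset.sum_congr rfl fun x _ => ?_
    refine Fintype.sum_bijective (fun y : L => x + y) (Equiv.addLeft x).bijective _ _ fun y => ?_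
    rw [← AddChar.map_add_eq_mul]
    congr 1
    rw [add_sub_cancel_left]
    ring
  have h1 : ∀ z : L, ∑ x : L, psi p L (x ^ s + (z - x) ^ s - a * z)
      = ∑ u : L, psi p L ((z * c u) ^ s - a * z) := by
    intro z
    by_cases hz : z = 0
    · subst hz
      refine Finset.sum_congr rfl fun x _ => ?_
      rw [zero_sub, hneg, zero_mul, zero_pow hs0]
      congr 1
      ring
    · symm
      refine Fintype.sum_bijective (fun u : L => z * u) (mulLeft_bijective₀ z hz) _ _ fun u => ?_
      congr 2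
      rw [mul_pow, hc]
      have : z - z * u = z * (1 - u) := by ring
      rw [this, mul_pow, mul_pow]
      ring
  rw [h0, Finset.sum_congr rfl fun z _ => h1 z, Finset.sum_comm]
  refine Finset.sum_congr rfl fun u _ => ?_
  have hu := c_ne_zero L s hs0 hb hneg c hc u
  rw [W]
  refine Fintype.sum_bijective (fun z : L => z * c u) (mulRight_bijective₀ (c u) hu) _ _ fun z => ?_
  congr 2
  field_simp

/-- There is an element, not `0` or `1`, which is not of the form `c u`. -/
theorem exists_not_c (s : ℕ) (hs0 : s ≠ 0) (hb : Function.Bijective (fun x : L => x ^ s))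
    (hq : 3 < Fintype.card L) (c : L → L)
    (hc : ∀ u, c u ^ s = u ^ s + (1 - u) ^ s) : ∃ b : L, b ≠ 0 ∧ b ≠ 1 ∧ ∀ u, c u ≠ b := by
  classical
  have hsym : ∀ u, c (1 - u) = c u := by
    intro u
    apply hb.1
    simp only [hc]
    rw [sub_sub_cancel]
    ring
  have hc0 : c 0 = 1 := by
    apply hb.1
    simp only [hc]
    rw [zero_pow hs0, sub_zero, one_pow, zero_add]
  have hc1 : c 1 = 1 := by
    have := hsym 0
    rwa [sub_zero, hc0] at this
  -- an element not fixed by `u ↦ 1 - u`
  obtain ⟨u0, h0, h1, h2⟩ : ∃ u0 : L, u0 ≠ 0 ∧ u0 ≠ 1 ∧ 1 - u0 ≠ u0 := by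
    by_contra hcon
    push Not at hcon
    have hsub : (univ : Finset L) ⊆ {0, 1, (2 : L)⁻¹} := by
      intro u _
      rw [Finset.mem_insert, Finset.mem_insert, Finset.mem_singleton]
      by_cases hu0 : u = 0
      · exact Or.inl hu0
      · by_cases hu1 : u = 1
        · exact Or.inr (Or.inl hu1)
        · refine Or.inr (Or.inr ?_)
          have h3 := hcon u hu0 hu1
          have h4 : (2 : L) * u = 1 := by linear_combination -h3
          exact (eq_inv_of_mul_eq_one_right h4)
    have h5 := Finset.card_le_card hsub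
    rw [Finset.card_univ] at h5
    have h6 : ({0, 1, (2 : L)⁻¹} : Finset L).card ≤ 3 := Finset.card_le_three
    omega
  by_contra hcon
  push Not at hcon
  have hsub : ((univ : Finset L).erase 0).erase 1 ⊆
      (((((univ : Finset L).erase 0).erase 1).erase u0).image c) := by
    intro b hbm
    rw [Finset.mem_erase, Finset.mem_erase] at hbm
    obtain ⟨u, hu⟩ := hcon b hbm.2.1 hbm.1
    rw [Finset.mem_image]
    have hu0 : u ≠ 0 := by
      rintro rfl
      exact hbm.1 (hu ▸ hc0)
    have hu1 : u ≠ 1 := by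
      rintro rfl
      exact hbm.1 (hu ▸ hc1)
    by_cases huu : u = u0
    · refine ⟨1 - u0, ?_, by rw [hsym, ← huu, hu]⟩
      rw [Finset.mem_erase, Finset.mem_erase, Finset.mem_erase]
      refine ⟨h2, ?_, ?_, Finset.mem_univ _⟩
      · intro h
        apply h0
        linear_combination -h
      · intro h
        apply h1
        linear_combination -h
    · refine ⟨u, ?_, hu⟩
      rw [Finset.mem_erase, Finset.mem_erase, Finset.mem_erase]
      exact ⟨huu, hu1, hu0, Finset.mem_univ _⟩
  have h3 := (Finset.card_le_card hsub).trans Finset.card_image_le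
  have h4 : u0 ∈ ((univ : Finset L).erase 0).erase 1 := by
    rw [Finset.mem_erase, Finset.mem_erase]
    exact ⟨h1, h0, Finset.mem_univ _⟩
  have h5 := Finset.card_erase_lt_of_mem h4
  omega

end Pool.Agent.Lib.HelQ
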