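import Pool.Agent.Lib.HelQ.Core

/-!
# Integer valued functions with the moments of a Weil sum: four values in two pairs of equal sum
-/

set_option autoImplicit false

namespace Pool.Agent.Lib.HelQ

open Finset

theorem core {p : ℕ} (hp : p.Prime) {n : ℕ} {S X Y D : ℤ} {a a' g m : ℕ}
    (hq : 2 < (p : ℤ) ^ n) (hD : 1 ≤ D) (hpD : ¬ (p : ℤ) ∣ D) (hXY : X + Y = (p : ℤ) ^ g)
    (hX0 : X ≠ 0) (hY0 : 0 < Y)
    (hX : (p : ℤ) ^ a ∣ X) (hX' : ¬ (p : ℤ) ^ (a + 1) ∣ X)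
    (hY : (p : ℤ) ^ a' ∣ Y) (hY' : ¬ (p : ℤ) ^ (a' + 1) ∣ Y) (haa : 2 * n ≤ a + a')
    (hq1 : ¬ (p : ℤ) ∣ (p : ℤ) ^ n - 1) (hpS : (p : ℤ) ∣ S) (hS : 2 - (p : ℤ) ^ n ≤ S)
    (hm : (p : ℤ) ^ m ∣ S) (hma : a + 1 ≤ n + m) (hmn : m < n)
    (hI : -(D * X) * ((p : ℤ) ^ n - 1) < (p : ℤ) ^ n * ((p : ℤ) ^ n - S))
    (hk : D * (p : ℤ) ^ g ∣ ((p : ℤ) ^ n) ^ 2 - S * (p : ℤ) ^ n + D * X * ((p : ℤ) ^ n - 1))
    {x y u z : ℤ} (hxz : x * z = -(D * Y)) (hyu : y * u = D * X) (hs : x + z = S)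
    (hs' : y + u = S) (hxy : x < y) (hyu' : y < u) (huz : u < z) (hx : -(p : ℤ) ^ n < x)
    (hx0 : x < 0) (hz0 : 0 < z) (hzp : (p : ℤ) ∣ z) : False := by
  have hp2 : (2 : ℤ) ≤ p := by exact_mod_cast hp.two_le
  rcases lt_or_gt_of_ne hX0 with hneg | hpos
  swap
  · exact core_pos hp hpD hpos hY0 hXY hX hX' hq1 hm hma hmn hk
  obtain ⟨X0, rfl⟩ : ∃ X0, X = -X0 := ⟨-X, (neg_neg X).symm⟩
  have hX0 : 0 < X0 := by omega
  rw [dvd_neg] at hX hX'
  have hDX : D * X0 < 2 * (p : ℤ) ^ n := by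
    by_contra hcon
    push Not at hcon
    have h3 : (p : ℤ) ^ n * ((p : ℤ) ^ n - S) ≤ (p : ℤ) ^ n * (2 * (p : ℤ) ^ n - 2) :=
      mul_le_mul_of_nonneg_left (by omega) (by omega)
    have h4 : 2 * (p : ℤ) ^ n * ((p : ℤ) ^ n - 1) ≤ D * X0 * ((p : ℤ) ^ n - 1) :=
      mul_le_mul_of_nonneg_right hcon (by omega)
    nlinarith
  have hXD : X0 ≤ D * X0 := by nlinarith
  rcases lt_trichotomy a' a with hlt | heq | hgt
  · -- the valuation of `X` is larger
    have h1 : n + 1 ≤ a := by omega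
    have h2 := Int.le_of_dvd hX0 ((pow_dvd_pow (p : ℤ) h1).trans hX)
    rw [pow_succ] at h2
    nlinarith
  · subst heq
    exact core_eq hp hq hD hXY hX0 hX hY hY' (by omega) hpS hDX
      (by rwa [mul_neg, neg_mul, ← sub_eq_add_neg] at hk) hxz
      (by rw [hyu, mul_neg]) (by omega)
  · have hga : g = a := by
      refine le_antisymm ?_ ?_
      · by_contra hcon
        push Not at hcon
        apply hX'
        have h1 : (p : ℤ) ^ (a + 1) ∣ Y - (p : ℤ) ^ g :=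
          dvd_sub ((pow_dvd_pow _ hgt).trans hY) (pow_dvd_pow _ hcon)
        have h2 : X0 = Y - (p : ℤ) ^ g := by linarith
        rwa [h2]
      · apply pow_le_of_dvd hp2
        rw [← hXY]
        exact dvd_add (dvd_neg.2 hX) ((pow_dvd_pow _ hgt.le).trans hY)
    subst hga
    have hn1 : n + 1 ≤ a' := by omega
    have hYX : Y = X0 + (p : ℤ) ^ g := by linarith
    have h1 := Int.le_of_dvd hY0 hY
    obtain ⟨b, rfl⟩ : ∃ b, a' = b + 1 := ⟨a' - 1, by omega⟩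
    have h2 : (p : ℤ) ^ g ≤ (p : ℤ) ^ b := pow_le_pow_right₀ (by omega) (by omega)
    have h3 : (p : ℤ) ^ n ≤ (p : ℤ) ^ b := pow_le_pow_right₀ (by omega) (by omega)
    rw [pow_succ] at h1
    have hp3 : (p : ℤ) < 3 := by
      by_contra hcon
      push Not at hcon
      nlinarith
    have hpe : p = 2 := by omega
    subst hpe
    push_cast at *
    have hbn : b = n := by
      by_contra hcon
      have h4 : n + 1 ≤ b := by omega
      have h5 : (2 : ℤ) ^ (n + 1) ≤ 2 ^ b := pow_le_pow_right₀ (by norm_num) h4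
      rw [pow_succ] at h5
      linarith
    subst hbn
    exact core_two hq hD hYX hX0 hY (by omega) (by omega) hDX (by linarith) hxz
      (by rw [hyu, mul_neg]) hs hxy hyu' huz hx hx0 hz0 hzp

namespace Dat

variable {p n : ℕ} {ι : Type} {T : Finset ι} {w : ι → ℤ} (D : Dat p n T w)

include D

/-- The valuations of four values. -/
theorem val_four {x y u z : ℤ} (hV : ∀ i ∈ T, w i = x ∨ w i = y ∨ w i = u ∨ w i = z)
    (hS : x + z = y + u) {a b c d : ℕ}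
    {x' y' u' z' : ℤ} (ha : a < n) (hb : b < n) (hc : c < n) (hd : d < n)
    (hx : x = (p : ℤ) ^ a * x') (hy : y = (p : ℤ) ^ b * y') (hu : u = (p : ℤ) ^ c * u')
    (hz : z = (p : ℤ) ^ d * z') (hx' : ¬ (p : ℤ) ∣ x')
    (hy' : ¬ (p : ℤ) ∣ y') (hu' : ¬ (p : ℤ) ∣ u') (hz' : ¬ (p : ℤ) ∣ z') :
    2 * n ≤ (b + c) + (a + d) := by
  by_contra hcon
  have h1 := D.sum4 (x + y + u + z) (x * y + x * u + x * z + y * u + y * z + u * z)
    (x * y * u + x * y * z + x * u * z + y * u * z) (x * y * u * z)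
  rw [Finset.sum_eq_zero] at h1
  swap
  · intro k hk
    rcases hV k hk with h2 | h2 | h2 | h2 <;> rw [h2] <;> ring
  set N := (b + c) + (a + d) + 1 with hN
  have hSa : ∃ t, x + z = (p : ℤ) ^ (min a d) * t := by
    obtain ⟨a1, ha1⟩ : ∃ a1, a = min a d + a1 := ⟨a - min a d, by omega⟩
    obtain ⟨d1, hd1⟩ : ∃ d1, d = min a d + d1 := ⟨d - min a d, by omega⟩
    refine ⟨(p : ℤ) ^ a1 * x' + (p : ℤ) ^ d1 * z', ?_⟩
    rw [hx, hz]
    have e1 : (p : ℤ) ^ a = (p : ℤ) ^ (min a d) * (p : ℤ) ^ a1 := by rw [← pow_add, ← ha1]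
    have e2 : (p : ℤ) ^ d = (p : ℤ) ^ (min a d) * (p : ℤ) ^ d1 := by rw [← pow_add, ← hd1]
    rw [mul_add, ← mul_assoc, ← mul_assoc, ← e1, ← e2]
  have hSb : ∃ t, y + u = (p : ℤ) ^ (min b c) * t := by
    obtain ⟨b1, hb1⟩ : ∃ b1, b = min b c + b1 := ⟨b - min b c, by omega⟩
    obtain ⟨c1, hc1⟩ : ∃ c1, c = min b c + c1 := ⟨c - min b c, by omega⟩
    refine ⟨(p : ℤ) ^ b1 * y' + (p : ℤ) ^ c1 * u', ?_⟩
    rw [hy, hu]
    have e1 : (p : ℤ) ^ b = (p : ℤ) ^ (min b c) * (p : ℤ) ^ b1 := by rw [← pow_add, ← hb1]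
    have e2 : (p : ℤ) ^ c = (p : ℤ) ^ (min b c) * (p : ℤ) ^ c1 := by rw [← pow_add, ← hc1]
    rw [mul_add, ← mul_assoc, ← mul_assoc, ← e1, ← e2]
  obtain ⟨t, ht⟩ := hSa
  obtain ⟨t', ht'⟩ := hSb
  have h2 : (p : ℤ) ^ N ∣
      (p : ℤ) ^ ((b + c) + (a + d)) * (x' * y' * u' * z' * ((p : ℤ) ^ n - 1)) := by
    have h3 : (p : ℤ) ^ ((b + c) + (a + d)) * (x' * y' * u' * z' * ((p : ℤ) ^ n - 1))
        = (x + y + u + z) * ∑ i ∈ T, w i ^ 3 - ∑ i ∈ T, w i ^ 4
          - (x * y + x * u + x * z + y * u + y * z + u * z) * ((p : ℤ) ^ n) ^ 2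
          + (p : ℤ) ^ n * ((x + z) * (y * u)) + (p : ℤ) ^ n * ((y + u) * (x * z)) := by
      have h4 : (p : ℤ) ^ ((b + c) + (a + d)) * (x' * y' * u' * z' * ((p : ℤ) ^ n - 1))
          = x * y * u * z * ((p : ℤ) ^ n - 1) := by
        rw [hx, hy, hu, hz, pow_add, pow_add, pow_add]
        ring
      rw [h4]
      linear_combination -h1
    rw [h3]
    have h5 : (p : ℤ) ^ N ∣ ((p : ℤ) ^ n) ^ 2 := by
      rw [← pow_mul]
      exact pow_dvd_pow _ (by omega)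
    refine dvd_add (dvd_add (dvd_sub (dvd_sub ((h5.trans D.m3).mul_left _) (h5.trans D.m4))
      (h5.mul_left _)) ?_) ?_
    · have : (p : ℤ) ^ n * ((x + z) * (y * u))
          = (p : ℤ) ^ (n + min a d + b + c) * (t * (y' * u')) := by
        rw [ht, hy, hu, pow_add, pow_add, pow_add]; ring
      rw [this]
      exact (pow_dvd_pow _ (by omega)).mul_right _
    · have : (p : ℤ) ^ n * ((y + u) * (x * z))
          = (p : ℤ) ^ (n + min b c + a + d) * (t' * (x' * z')) := by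
        rw [ht', hx, hz, pow_add, pow_add, pow_add]; ring
      rw [this]
      exact (pow_dvd_pow _ (by omega)).mul_right _
  have h3 := cancel_pow D.p0 _ h2
  rcases D.pp.dvd_or_dvd h3 with h4 | h4
  · rcases D.pp.dvd_or_dvd h4 with h5 | h5
    · rcases D.pp.dvd_or_dvd h5 with h6 | h6
      · rcases D.pp.dvd_or_dvd h6 with h7 | h7
        · exact hx' h7
        · exact hy' h7
      · exact hu' h6
    · exact hz' h5
  · exact D.not_dvd_q1 h4

/-- The valuation of a product, divided by a number prime to `p`. -/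
theorem val_prod {y u X E : ℤ} {b c : ℕ} {y' u' : ℤ} (hpE : ¬ (p : ℤ) ∣ E)
    (hy : y = (p : ℤ) ^ b * y') (hu : u = (p : ℤ) ^ c * u') (hy' : ¬ (p : ℤ) ∣ y')
    (hu' : ¬ (p : ℤ) ∣ u') (h : y * u = E * X) :
    (p : ℤ) ^ (b + c) ∣ X ∧ ¬ (p : ℤ) ^ (b + c + 1) ∣ X := by
  have h1 : E * X = (p : ℤ) ^ (b + c) * (y' * u') := by
    rw [← h, hy, hu, pow_add]
    ring
  constructor
  · exact (coprime_pow D.hp hpE _).dvd_of_dvd_mul_left ⟨_, h1⟩
  · intro h2
    have h3 := h2.mul_left E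
    rw [h1] at h3
    rcases D.pp.dvd_or_dvd (cancel_pow D.p0 _ h3) with h4 | h4
    · exact hy' h4
    · exact hu' h4

/-- Four values in two pairs of equal sum are impossible. -/
theorem not_four (x y u z : ℤ) (hxy : x < y) (hyu : y < u) (huz : u < z) (hS : x + z = y + u)
    (hV : ∀ i ∈ T, w i = x ∨ w i = y ∨ w i = u ∨ w i = z) (hx : ∃ i ∈ T, w i = x)
    (hy : ∃ i ∈ T, w i = y) (hu : ∃ i ∈ T, w i = u) (hz : ∃ i ∈ T, w i = z)
    (hk : y * u - x * z ∣ (p : ℤ) ^ n * (y * u)) : False := by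
  have hx0 : x < 0 := by
    obtain ⟨i, hi, h⟩ := D.exists_neg
    rcases hV i hi with h1 | h1 | h1 | h1 <;> omega
  have hz0 : 0 < z := by
    obtain ⟨i, hi, h⟩ := D.exists_pos
    rcases hV i hi with h1 | h1 | h1 | h1 <;> omega
  obtain ⟨ix, hix, hx⟩ := hx
  obtain ⟨iy, hiy, hy⟩ := hy
  obtain ⟨iu, hiu, hu⟩ := hu
  obtain ⟨iz, hiz, hz⟩ := hz
  have hbx := abs_lt.1 (D.lt hix)
  have hbz := abs_lt.1 (D.lt hiz)
  have hpx := D.dvd ix hix
  have hpz := D.dvd iz hiz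
  have hy0 := D.ne iy hiy
  have hu0 := D.ne iu hiu
  obtain ⟨a, x', ha1, han, hxa, hx'⟩ := exists_val D.hp (D.ne ix hix) (D.lt hix) (D.dvd ix hix)
  obtain ⟨b, y', hb1, hbn, hyb, hy'⟩ := exists_val D.hp (D.ne iy hiy) (D.lt hiy) (D.dvd iy hiy)
  obtain ⟨c, u', hc1, hcn, huc, hu'⟩ := exists_val D.hp (D.ne iu hiu) (D.lt hiu) (D.dvd iu hiu)
  obtain ⟨d, z', hd1, hdn, hzd, hz'⟩ := exists_val D.hp (D.ne iz hiz) (D.lt hiz) (D.dvd iz hiz)
  rw [hx] at hxa hbx hpx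
  rw [hy] at hyb hy0
  rw [hu] at huc hu0
  rw [hz] at hzd hbz hpz
  have hval := D.val_four hV hS han hbn hcn hdn hxa hyb huc hzd hx' hy' hu' hz'
  have hq := D.hq
  have hp2 := D.two_le
  -- the number `κ`
  have hκ : 0 < y * u - x * z := by
    have h1 : y * u - x * z = (y - x) * (z - y) := by
      have : u = x + z - y := by omega
      rw [this]
      ring
    rw [h1]
    exact mul_pos (by omega) (by omega)
  have hfin : FiniteMultiplicity (p : ℤ) (y * u - x * z) := by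
    rw [Int.finiteMultiplicity_iff]
    exact ⟨by rw [Int.natAbs_natCast]; exact D.hp.one_lt.ne', hκ.ne'⟩
  obtain ⟨E, hE, hpE⟩ := hfin.exists_eq_pow_mul_and_not_dvd
  set g := multiplicity (p : ℤ) (y * u - x * z) with hg
  have hE1 : 1 ≤ E := by
    by_contra hcon
    push Not at hcon
    have h1 : 0 < (p : ℤ) ^ g := by positivity
    nlinarith
  -- `E` divides the product of the inner values
  obtain ⟨X, hX⟩ : E ∣ y * u := by
    have h1 : E ∣ (p : ℤ) ^ n * (y * u) := (Dvd.intro_left _ hE.symm).trans hk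
    exact (coprime_pow D.hp hpE n).symm.dvd_of_dvd_mul_left h1
  have hY : x * z = E * (X - (p : ℤ) ^ g) := by
    rw [mul_sub, ← hX]
    linarith
  obtain ⟨hX1, hX2⟩ := D.val_prod hpE hyb huc hy' hu' hX
  obtain ⟨hY1, hY2⟩ := D.val_prod hpE hxa hzd hx' hz' hY
  have hX0 : X ≠ 0 := by
    rintro rfl
    rw [mul_zero] at hX
    exact (mul_ne_zero hy0 hu0) hX
  have hY0 : X - (p : ℤ) ^ g < 0 := by
    have h1 : x * z < 0 := mul_neg_of_neg_of_pos hx0 hz0
    rw [hY] at h1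
    by_contra hcon
    push Not at hcon
    have := mul_nonneg (by omega : 0 ≤ E) hcon
    omega
  have hS0 : (p : ℤ) ∣ x + z := dvd_add hpx hpz
  have hS1 : 2 - (p : ℤ) ^ n ≤ x + z := by
    have h1 : 1 - (p : ℤ) ^ n ≤ x + z := by omega
    rcases eq_or_lt_of_le h1 with h2 | h2
    · exfalso
      rw [← h2] at hS0
      have := dvd_add hS0 D.dvd_q
      rw [sub_add_cancel] at this
      exact D.pp.not_dvd_one this
    · omega
  have hsum := D.sum2 (x + z) (y * u)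
  have hterm : ∀ i ∈ T, w i ^ 2 - (x + z) * w i + y * u = 0 ∨
      w i ^ 2 - (x + z) * w i + y * u = y * u - x * z := by
    intro i hi
    rcases hV i hi with h1 | h1 | h1 | h1 <;> rw [h1]
    · right; ring
    · left; rw [hS]; ring
    · left; rw [hS]; ring
    · right; ring
  have hI : 0 < ((p : ℤ) ^ n) ^ 2 - (x + z) * (p : ℤ) ^ n + y * u * ((p : ℤ) ^ n - 1) := by
    rw [← hsum]
    refine Finset.sum_pos' ?_ ⟨ix, hix, ?_⟩
    · intro i hi
      rcases hterm i hi with h1 | h1 <;> rw [h1]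
      exact hκ.le
    · rw [hx]
      have : x ^ 2 - (x + z) * x + y * u = y * u - x * z := by ring
      rw [this]
      exact hκ
  have hdv : E * (p : ℤ) ^ g ∣
      ((p : ℤ) ^ n) ^ 2 - (x + z) * (p : ℤ) ^ n + E * X * ((p : ℤ) ^ n - 1) := by
    rw [← hX, ← hsum, mul_comm E, ← hE]
    refine Finset.dvd_sum fun i hi => ?_
    rcases hterm i hi with h1 | h1 <;> rw [h1]
    exact dvd_zero _
  have hm : (p : ℤ) ^ (min b c) ∣ x + z := by
    rw [hS, hyb, huc]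
    exact dvd_add ((pow_dvd_pow _ (min_le_left _ _)).mul_right _)
      ((pow_dvd_pow _ (min_le_right _ _)).mul_right _)
  refine core D.hp (S := x + z) (X := X) (Y := (p : ℤ) ^ g - X) (D := E) (a := b + c)
    (a' := a + d) (g := g) (m := min b c) hq hE1 hpE (by ring) hX0 (by omega) hX1 hX2 ?_ ?_
    hval D.not_dvd_q1 hS0 hS1 hm (by omega) (by omega) ?_ hdv (x := x) (y := y) (u := u) (z := z)
    ?_ hX rfl hS.symm hxy hyu huz hbx.1 hx0 hz0 hpz
  · rw [← neg_sub, dvd_neg]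
    exact hY1
  · rw [← neg_sub, dvd_neg]
    exact hY2
  · rw [← hX]
    linarith
  · rw [hY]
    ring

end Dat

end Pool.Agent.Lib.HelQ
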