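import Pool.Agent.Lib.HelQ.Facts

/-!
# Weil sums of an invertible exponent: the integer valued function
-/

set_option autoImplicit false

namespace Pool.Agent.Lib.HelQ

open Finset Pool.Agent.Lib.HQ

variable (p : ℕ) [Fact p.Prime] (L : Type) [Field L] [Fintype L] [Algebra (ZMod p) L]

theorem psi_pow [CharP L p] (x : L) : psi p L x ^ p = 1 := by
  rw [← AddChar.map_nsmul_eq_pow, nsmul_eq_mul, CharP.cast_eq_zero, zero_mul,
    AddChar.map_zero_eq_one]

theorem isIntegral_W [CharP L p] (s : ℕ) (a : L) : IsIntegral ℤ (W p L s a) := by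
  refine IsIntegral.sum _ fun x _ => ?_
  refine IsIntegral.of_pow (Fact.out : p.Prime).pos ?_
  rw [psi_pow]
  exact isIntegral_one

theorem exists_int [CharP L p] (s : ℕ) (hs0 : s ≠ 0) (h1 : s ≡ 1 [MOD p - 1]) (a : L) :
    ∃ w : ℤ, (w : ℂ) = W p L s a ∧ (p : ℤ) ∣ w := by
  classical
  have hp : p.Prime := Fact.out
  have h2 := avg p (ZMod p) L (fun x => x ^ s - a * x) (by
    intro k x
    rw [mul_pow, ← map_pow, zmod_pow_s p s hs0 h1]
    ring)
  rw [ZMod.card] at h2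
  set Z : ℕ := (univ.filter (fun x : L => Algebra.trace (ZMod p) L (x ^ s - a * x) = 0)).card with hZ
  have h3 : ((p : ℂ) - 1) * W p L s a = (p : ℂ) * (Z : ℂ) - (Fintype.card L : ℂ) := h2
  have hp1 : (p : ℂ) - 1 ≠ 0 := by
    rw [sub_ne_zero]
    exact_mod_cast hp.one_lt.ne'
  have hp1q : (p : ℚ) - 1 ≠ 0 := by
    rw [sub_ne_zero]
    exact_mod_cast hp.one_lt.ne'
  set r : ℚ := ((p : ℚ) * (Z : ℚ) - (Fintype.card L : ℚ)) / ((p : ℚ) - 1) with hr
  have h4 : algebraMap ℚ ℂ r = W p L s a := by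
    rw [hr, eq_ratCast]
    push_cast
    rw [← h3]
    field_simp
  have h5 : IsIntegral ℤ r := by
    have h6 := isIntegral_W p L s a
    rw [← h4] at h6
    exact (isIntegral_algebraMap_iff (algebraMap ℚ ℂ).injective).1 h6
  obtain ⟨w, hw⟩ := IsIntegrallyClosed.isIntegral_iff.1 h5
  have h7 : (w : ℂ) = W p L s a := by
    rw [← h4, ← hw]
    simp
  refine ⟨w, h7, ?_⟩
  have h8 : ((p : ℤ) - 1) * w = (p : ℤ) * (Z : ℤ) - (Fintype.card L : ℤ) := by
    have h9 : ((((p : ℤ) - 1) * w : ℤ) : ℂ) = (((p : ℤ) * (Z : ℤ) - (Fintype.card L : ℤ) : ℤ) : ℂ) := by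
      push_cast
      rw [h7]
      exact h3
    exact_mod_cast h9
  have h10 : (p : ℤ) ∣ (Fintype.card L : ℤ) := by
    obtain ⟨n, -, hn⟩ := FiniteField.card L p
    rw [hn]
    push_cast
    exact dvd_pow_self _ n.ne_zero
  have h11 : (p : ℤ) ∣ ((p : ℤ) - 1) * w := by
    rw [h8]
    exact dvd_sub (dvd_mul_right _ _) h10
  have h12 : w = (p : ℤ) * w - ((p : ℤ) - 1) * w := by ring
  rw [h12]
  exact dvd_sub (dvd_mul_right _ _) h11

/-- The facts on the integer valued function. -/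
theorem facts [CharP L p] (s : ℕ) (hq : 2 < Fintype.card L)
    (hs : Nat.Coprime s (Fintype.card L - 1)) (h1 : s ≡ 1 [MOD p - 1]) :
    ∃ w : L → ℤ, (∀ a, (w a : ℂ) = W p L s a) ∧ w 0 = 0 ∧ (∀ a, (p : ℤ) ∣ w a) ∧
      ∑ a, w a = (Fintype.card L : ℤ) ∧ ∑ a, w a ^ 2 = (Fintype.card L : ℤ) ^ 2 ∧
      (Fintype.card L : ℤ) ^ 2 ∣ ∑ a, w a ^ 3 ∧ (Fintype.card L : ℤ) ^ 2 ∣ ∑ a, w a ^ 4 ∧
      (3 < Fintype.card L → ∃ b : L, b ≠ 0 ∧ ∑ a, w a ^ 2 * w (a * b) = 0 ∧
        ∑ a, w a * w (a * b) = 0 ∧ ∑ a, w (a * b) = (Fintype.card L : ℤ)) := by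
  classical
  have hs0 := exp_ne_zero (L := L) s hq hs
  have hb := pow_bij (L := L) s hq hs
  have hneg := neg_pow_s (L := L) p Fact.out s h1
  choose w hw hdvd using exists_int p L s hs0 h1
  have hex : ∀ u : L, ∃ v : L, v ^ s = u ^ s + (1 - u) ^ s := fun u => hb.2 _
  choose c hc using hex
  have hcn := c_ne_zero L s hs0 hb hneg c hc
  have hsq := W_sq p L s hs0 hb hneg c hc
  have hWW := sum_WW p L s hb hneg
  have hshift : ∀ d e : L, d ≠ 0 → ∑ a : L, W p L s (a * d) * W p L s (a * e)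
      = ∑ a : L, W p L s a * W p L s (a * (d⁻¹ * e)) := by
    intro d e hd
    refine Fintype.sum_bijective (fun a : L => a * d) (mulRight_bijective₀ d hd) _ _ fun a => ?_
    congr 2
    rw [mul_assoc, mul_inv_cancel_left₀ hd]
  refine ⟨w, hw, ?_, hdvd, ?_, ?_, ?_, ?_, ?_⟩
  · have h := hw 0
    rw [W_zero p L s hb] at h
    exact_mod_cast h
  · have h := sum_W p L s hs0 1 one_ne_zero
    simp only [mul_one, ← hw] at h
    exact_mod_cast h
  · have h := hWW 1
    rw [if_pos rfl] at h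
    simp only [mul_one, ← hw] at h
    have h2 : ∑ a, w a ^ 2 = ∑ a, w a * w a := Finset.sum_congr rfl fun a _ => sq _
    rw [h2]
    exact_mod_cast h
  · refine ⟨((univ.filter (fun u : L => (c u)⁻¹ = 1)).card : ℤ), ?_⟩
    have h : ∑ a : L, W p L s a ^ 3 = (Fintype.card L : ℂ) ^ 2
        * ((univ.filter (fun u : L => (c u)⁻¹ = 1)).card : ℂ) := by
      have h2 : ∀ a : L, W p L s a ^ 3 = ∑ u : L, W p L s a * W p L s (a * (c u)⁻¹) := by
        intro a
        rw [pow_succ' _ 2, hsq, Finset.mul_sum]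
      rw [Finset.sum_congr rfl fun a _ => h2 a, Finset.sum_comm,
        Finset.sum_congr rfl fun u _ => hWW ((c u)⁻¹), ← Finset.sum_filter, Finset.sum_const,
        nsmul_eq_mul, mul_comm]
    simp only [← hw] at h
    exact_mod_cast h
  · refine ⟨∑ u : L, ((univ.filter (fun v : L => ((c u)⁻¹)⁻¹ * (c v)⁻¹ = 1)).card : ℤ), ?_⟩
    have h : ∑ a : L, W p L s a ^ 4 = (Fintype.card L : ℂ) ^ 2
        * ∑ u : L, ((univ.filter (fun v : L => ((c u)⁻¹)⁻¹ * (c v)⁻¹ = 1)).card : ℂ) := by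
      have h2 : ∀ a : L, W p L s a ^ 4
          = ∑ u : L, ∑ v : L, W p L s (a * (c u)⁻¹) * W p L s (a * (c v)⁻¹) := by
        intro a
        rw [show W p L s a ^ 4 = W p L s a ^ 2 * W p L s a ^ 2 by ring, hsq, Finset.sum_mul_sum]
      rw [Finset.sum_congr rfl fun a _ => h2 a, Finset.sum_comm, Finset.mul_sum]
      refine Finset.sum_congr rfl fun u _ => ?_
      rw [Finset.sum_comm, Finset.sum_congr rfl fun v _ => hshift _ _ (inv_ne_zero (hcn u)),
        Finset.sum_congr rfl fun v _ => hWW (((c u)⁻¹)⁻¹ * (c v)⁻¹), ← Finset.sum_filter,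
        Finset.sum_const, nsmul_eq_mul, mul_comm]
    simp only [← hw] at h
    exact_mod_cast h
  · intro hq3
    obtain ⟨b0, hb0, hb1, hbc⟩ := exists_not_c L s hs0 hb hq3 c hc
    refine ⟨b0⁻¹, inv_ne_zero hb0, ?_, ?_, ?_⟩
    · have h : ∑ a : L, W p L s a ^ 2 * W p L s (a * b0⁻¹) = 0 := by
        have h2 : ∀ a : L, W p L s a ^ 2 * W p L s (a * b0⁻¹)
            = ∑ u : L, W p L s (a * (c u)⁻¹) * W p L s (a * b0⁻¹) := by
          intro a
          rw [hsq, Finset.sum_mul]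
        rw [Finset.sum_congr rfl fun a _ => h2 a, Finset.sum_comm]
        refine Finset.sum_eq_zero fun u _ => ?_
        rw [hshift _ _ (inv_ne_zero (hcn u)), hWW, if_neg]
        intro h3
        rw [inv_inv] at h3
        exact hbc u (mul_inv_eq_one₀ hb0 |>.1 h3)
      simp only [← hw] at h
      exact_mod_cast h
    · have h := hWW b0⁻¹
      rw [if_neg (fun h3 => hb1 (inv_eq_one.1 h3))] at h
      simp only [← hw] at h
      exact_mod_cast h
    · have h := sum_W p L s hs0 b0⁻¹ (inv_ne_zero hb0)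
      simp only [← hw] at h
      exact_mod_cast h

end Pool.Agent.Lib.HelQ
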