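import Pool.Agent.Lib.HelQ.Int
import Pool.Agent.Lib.HelQ.Four

/-!
# The vanishing theorem: a quadratic polynomial of the Weil sum with at most two values
-/

set_option autoImplicit false

namespace Pool.Agent.Lib.HelQ

open Finset Pool.Agent.Lib.HQ

section Pairing

variable {S e : ℂ}

theorem pair_sum {x y : ℤ} (hx : (x : ℂ) * (x - S) = e) (hy : (y : ℂ) * (y - S) = e)
    (h : x ≠ y) : (x : ℂ) + y = S := by
  have h1 : ((x : ℂ) - y) * (x + y - S) = 0 := by linear_combination hx - hy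
  rcases mul_eq_zero.1 h1 with h2 | h2
  · exfalso
    apply h
    have : (x : ℂ) = y := by linear_combination h2
    exact_mod_cast this
  · linear_combination h2

theorem no_three {x y z : ℤ} (hx : (x : ℂ) * (x - S) = e) (hy : (y : ℂ) * (y - S) = e)
    (hz : (z : ℂ) * (z - S) = e) (h1 : x ≠ y) (h2 : x ≠ z) (h3 : y ≠ z) : False := by
  have h4 := pair_sum hx hy h1
  have h5 := pair_sum hx hz h2
  apply h3
  have : (y : ℂ) = z := by linear_combination h4 - h5
  exact_mod_cast this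

theorem pairing {x y u z : ℤ} (hxy : x < y) (hyz : y < z) (hxu : x < u) (huz : u < z)
    (hyu : y ≠ u) {c d : ℂ} (hx : (x : ℂ) * (x - S) = c ∨ (x : ℂ) * (x - S) = d)
    (hy : (y : ℂ) * (y - S) = c ∨ (y : ℂ) * (y - S) = d)
    (hu : (u : ℂ) * (u - S) = c ∨ (u : ℂ) * (u - S) = d)
    (hz : (z : ℂ) * (z - S) = c ∨ (z : ℂ) * (z - S) = d) :
    x + z = y + u ∧ ∀ v : ℤ, ((v : ℂ) * (v - S) = c ∨ (v : ℂ) * (v - S) = d) →
      v = x ∨ v = y ∨ v = u ∨ v = z := by
  have hxy' : x ≠ y := hxy.ne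
  have hxu' : x ≠ u := hxu.ne
  have hxz' : x ≠ z := by omega
  have hyz' : y ≠ z := hyz.ne
  have huz' : u ≠ z := huz.ne
  have good : ∀ c' d' : ℂ, (x : ℂ) * (x - S) = c' → (z : ℂ) * (z - S) = c' →
      (y : ℂ) * (y - S) = d' → (u : ℂ) * (u - S) = d' → x + z = y + u ∧
      ∀ v : ℤ, ((v : ℂ) * (v - S) = c' ∨ (v : ℂ) * (v - S) = d') →
        v = x ∨ v = y ∨ v = u ∨ v = z := by
    intro c' d' h1 h2 h3 h4
    have h5 := pair_sum h1 h2 hxz'
    have h6 := pair_sum h3 h4 hyu
    refine ⟨?_, ?_⟩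
    · have : (x : ℂ) + z = y + u := by rw [h5, h6]
      exact_mod_cast this
    · intro v hv
      by_contra hcon
      push Not at hcon
      rcases hv with hv | hv
      · exact no_three h1 h2 hv hxz' hcon.1.symm hcon.2.2.2.symm
      · exact no_three h3 h4 hv hyu hcon.2.1.symm hcon.2.2.1.symm
  have bad1 : ∀ c' d' : ℂ, (x : ℂ) * (x - S) = c' → (y : ℂ) * (y - S) = c' →
      (u : ℂ) * (u - S) = d' → (z : ℂ) * (z - S) = d' → False := by
    intro c' d' h1 h2 h3 h4
    have h5 := pair_sum h1 h2 hxy'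
    have h6 := pair_sum h3 h4 huz'
    have h7 : (x : ℂ) + y = u + z := by rw [h5, h6]
    have h8 : x + y = u + z := by exact_mod_cast h7
    omega
  have bad2 : ∀ c' d' : ℂ, (x : ℂ) * (x - S) = c' → (u : ℂ) * (u - S) = c' →
      (y : ℂ) * (y - S) = d' → (z : ℂ) * (z - S) = d' → False := by
    intro c' d' h1 h2 h3 h4
    have h5 := pair_sum h1 h2 hxu'
    have h6 := pair_sum h3 h4 hyz'
    have h7 : (x : ℂ) + u = y + z := by rw [h5, h6]
    have h8 : x + u = y + z := by exact_mod_cast h7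
    omega
  rcases hx with hx | hx <;> rcases hy with hy | hy <;> rcases hu with hu | hu <;>
    rcases hz with hz | hz
  · exact (no_three hx hy hu hxy' hxu' hyu).elim
  · exact (no_three hx hy hu hxy' hxu' hyu).elim
  · exact (no_three hx hy hz hxy' hxz' hyz').elim
  · exact (bad1 _ _ hx hy hu hz).elim
  · exact (no_three hx hu hz hxu' hxz' huz').elim
  · exact (bad2 _ _ hx hu hy hz).elim
  · exact good _ _ hx hz hy hu
  · exact (no_three hy hu hz hyu hyz' huz').elim
  · exact (no_three hy hu hz hyu hyz' huz').elim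
  · obtain ⟨h1, h2⟩ := good _ _ hx hz hy hu
    exact ⟨h1, fun v hv => h2 v hv.symm⟩
  · exact (bad2 _ _ hx hu hy hz).elim
  · exact (no_three hx hu hz hxu' hxz' huz').elim
  · exact (bad1 _ _ hx hy hu hz).elim
  · exact (no_three hx hy hz hxy' hxz' hyz').elim
  · exact (no_three hx hy hu hxy' hxu' hyu).elim
  · exact (no_three hx hy hu hxy' hxu' hyu).elim

end Pairing

variable (p : ℕ) [Fact p.Prime] (L : Type) [Field L] [Fintype L] [Algebra (ZMod p) L]

/-- If a quadratic polynomial of the Weil sum takes at most two values, then the Weil sum has a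
zero. -/
theorem vanish [CharP L p] (s : ℕ) (hq : 2 < Fintype.card L)
    (hs : Nat.Coprime s (Fintype.card L - 1)) (h1 : s ≡ 1 [MOD p - 1])
    (S c d : ℂ) (hQ : ∀ a : L, a ≠ 0 → W p L s a * (W p L s a - S) = c ∨
      W p L s a * (W p L s a - S) = d) : ∃ a : L, a ≠ 0 ∧ W p L s a = 0 := by
  classical
  by_contra hcon
  push Not at hcon
  obtain ⟨w, hw, hw0, hdvd, m1, m2, m3, m4, hb⟩ := facts p L s hq hs h1
  obtain ⟨n, hp, hcard⟩ := FiniteField.card L p
  have hcz : (Fintype.card L : ℤ) = (p : ℤ) ^ (n : ℕ) := by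
    rw [hcard]
    push_cast
    rfl
  set T : Finset L := univ.erase 0 with hT
  have hTsum : ∀ f : L → ℤ, f 0 = 0 → ∑ a ∈ T, f a = ∑ a, f a := by
    intro f hf
    rw [← Finset.add_sum_erase univ f (mem_univ 0), hf, zero_add]
  have hTmem : ∀ a, a ∈ T ↔ a ≠ 0 := by
    intro a
    rw [hT, Finset.mem_erase]
    exact ⟨fun h => h.1, fun h => ⟨h, mem_univ _⟩⟩
  have D : Dat p (n : ℕ) T w := by
    refine ⟨hp, ?_, ?_, fun i _ => hdvd i, ?_, ?_, ?_, ?_, ?_⟩
    · rw [← hcz]
      exact_mod_cast hq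
    · rw [hT, Finset.card_erase_of_mem (mem_univ _), Finset.card_univ,
        Nat.cast_sub (by omega), hcz]
      simp
    · intro i hi h
      apply hcon i ((hTmem i).1 hi)
      rw [← hw, h, Int.cast_zero]
    · rw [hTsum _ hw0, m1, hcz]
    · rw [hTsum _ (by rw [hw0]; ring), m2, hcz]
    · rw [hTsum _ (by rw [hw0]; ring), ← hcz]
      exact m3
    · rw [hTsum _ (by rw [hw0]; ring), ← hcz]
      exact m4
  have hne : T.Nonempty := by
    rw [← Finset.card_pos]
    have := D.card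
    have := D.hq
    omega
  have hQ' : ∀ i ∈ T, (w i : ℂ) * (w i - S) = c ∨ (w i : ℂ) * (w i - S) = d := by
    intro i hi
    rw [hw]
    exact hQ i ((hTmem i).1 hi)
  obtain ⟨i0, hi0, hmin⟩ := Finset.exists_min_image T w hne
  obtain ⟨i1, hi1, hmax⟩ := Finset.exists_max_image T w hne
  by_cases h2 : ∀ i ∈ T, w i = w i0 ∨ w i = w i1
  · exact D.not_two _ _ h2
  push Not at h2
  obtain ⟨i2, hi2, h20, h21⟩ := h2
  have hlt1 : w i0 < w i2 := lt_of_le_of_ne (hmin i2 hi2) h20.symm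
  have hlt2 : w i2 < w i1 := lt_of_le_of_ne (hmax i2 hi2) h21
  by_cases h3 : ∀ i ∈ T, w i = w i0 ∨ w i = w i2 ∨ w i = w i1
  · exact D.not_three _ _ _ hlt1 hlt2 h3 ⟨i0, hi0, rfl⟩ ⟨i2, hi2, rfl⟩ ⟨i1, hi1, rfl⟩
  push Not at h3
  obtain ⟨i3, hi3, h30, h32, h31⟩ := h3
  have hlt3 : w i0 < w i3 := lt_of_le_of_ne (hmin i3 hi3) h30.symm
  have hlt4 : w i3 < w i1 := lt_of_le_of_ne (hmax i3 hi3) h31
  -- four values
  have main : ∀ iy iu : L, iy ∈ T → iu ∈ T → w i0 < w iy → w iy < w iu → w iu < w i1 → False := by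
    intro iy iu hiy hiu hxy hyu huz
    obtain ⟨hS, hall⟩ := pairing (hxy) (hyu.trans huz) (hxy.trans hyu) huz hyu.ne
      (hQ' i0 hi0) (hQ' iy hiy) (hQ' iu hiu) (hQ' i1 hi1)
    have hV : ∀ i ∈ T, w i = w i0 ∨ w i = w iy ∨ w i = w iu ∨ w i = w i1 :=
      fun i hi => hall _ (hQ' i hi)
    have hq3 : 3 < Fintype.card L := by
      have h4 : ({w i0, w iy, w iu, w i1} : Finset ℤ) ⊆ T.image w := by
        intro v hv
        simp only [Finset.mem_insert, Finset.mem_singleton] at hv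
        rw [Finset.mem_image]
        rcases hv with rfl | rfl | rfl | rfl
        · exact ⟨i0, hi0, rfl⟩
        · exact ⟨iy, hiy, rfl⟩
        · exact ⟨iu, hiu, rfl⟩
        · exact ⟨i1, hi1, rfl⟩
      have h5 := (Finset.card_le_card h4).trans Finset.card_image_le
      have h6 : ({w i0, w iy, w iu, w i1} : Finset ℤ).card = 4 := by
        rw [Finset.card_insert_of_notMem, Finset.card_insert_of_notMem,
          Finset.card_insert_of_notMem, Finset.card_singleton]
        · rw [Finset.mem_singleton]; omega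
        · simp only [Finset.mem_insert, Finset.mem_singleton]; omega
        · simp only [Finset.mem_insert, Finset.mem_singleton]; omega
      have h7 : T.card ≤ Fintype.card L := Finset.card_le_univ T
      omega
    obtain ⟨b, hb0, hb2, hb1, hbs⟩ := hb hq3
    refine D.not_four (w i0) (w iy) (w iu) (w i1) hxy hyu huz hS hV ⟨i0, hi0, rfl⟩
      ⟨iy, hiy, rfl⟩ ⟨iu, hiu, rfl⟩ ⟨i1, hi1, rfl⟩ ?_
    have h4 : ∑ a ∈ T, (w a ^ 2 - (w i0 + w i1) * w a + w iy * w iu) * w (a * b)
        = (p : ℤ) ^ (n : ℕ) * (w iy * w iu) := by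
      rw [hTsum (fun a => (w a ^ 2 - (w i0 + w i1) * w a + w iy * w iu) * w (a * b))
        (by simp only [zero_mul, hw0, mul_zero])]
      have h5 : ∀ a : L, (w a ^ 2 - (w i0 + w i1) * w a + w iy * w iu) * w (a * b)
          = w a ^ 2 * w (a * b) - (w i0 + w i1) * (w a * w (a * b))
            + w iy * w iu * w (a * b) := by
        intro a
        ring
      rw [Finset.sum_congr rfl fun a _ => h5 a, Finset.sum_add_distrib, Finset.sum_sub_distrib,
        ← Finset.mul_sum, ← Finset.mul_sum, hb2, hb1, hbs, hcz]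
      ring
    rw [← h4]
    refine Finset.dvd_sum fun i hi => ?_
    refine Dvd.dvd.mul_right ?_ _
    rcases hV i hi with h5 | h5 | h5 | h5 <;> rw [h5]
    · exact ⟨1, by ring⟩
    · exact ⟨0, by rw [hS]; ring⟩
    · exact ⟨0, by rw [hS]; ring⟩
    · exact ⟨1, by ring⟩
  rcases lt_or_gt_of_ne h32 with h4 | h4
  · exact main i3 i2 hi3 hi2 hlt3 h4 hlt2
  · exact main i2 i3 hi2 hi3 hlt1 h4 hlt4

end Pool.Agent.Lib.HelQ
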