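import Pool.Agent.Lib.HelQ.Int

/-!
# Two residues of the Weil sum modulo a number prime to the characteristic
-/

set_option autoImplicit false

namespace Pool.Agent.Lib.HelQ

open Finset Pool.Agent.Lib.HQ

variable (p : ℕ) [Fact p.Prime] (L : Type) [Field L] [Fintype L] [Algebra (ZMod p) L]

/-- If the Weil sum on the nonzero elements has at most two residues, in the sense
`M ∣ (W a - c) * (W a - d)`, modulo `M` prime to `p`, then these are `0` and `|L|`, in the sense
`c * d = 0` and `c + d = |L|` modulo `M`. -/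
theorem two_residues [CharP L p] (s : ℕ) (hq : 3 < Fintype.card L)
    (hs : Nat.Coprime s (Fintype.card L - 1)) (h1 : s ≡ 1 [MOD p - 1]) :
    ∃ w : L → ℤ, (∀ a, (w a : ℂ) = W p L s a) ∧ ∀ M c d : ℤ, IsCoprime M (p : ℤ) →
      (∀ a : L, a ≠ 0 → M ∣ (w a - c) * (w a - d)) →
      M ∣ c * d ∧ M ∣ (Fintype.card L : ℤ) - (c + d) := by
  classical
  obtain ⟨w, hw, hw0, hdvd, m1, m2, m3, m4, hb⟩ := facts p L s (by omega) hs h1
  obtain ⟨n, hp, hcard⟩ := FiniteField.card L p
  have hcz : (Fintype.card L : ℤ) = (p : ℤ) ^ (n : ℕ) := by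
    rw [hcard]
    push_cast
    rfl
  refine ⟨w, hw, fun M c d hM h => ?_⟩
  have hMq : IsCoprime M (Fintype.card L : ℤ) := by
    rw [hcz]
    exact hM.pow_right
  obtain ⟨b, hb0, hb2, hb1, hbs⟩ := hb hq
  have h4 : ∑ a : L, (w a ^ 2 - (c + d) * w a + c * d) * w (a * b)
      = c * d * (Fintype.card L : ℤ) := by
    have h5 : ∀ a : L, (w a ^ 2 - (c + d) * w a + c * d) * w (a * b)
        = w a ^ 2 * w (a * b) - (c + d) * (w a * w (a * b)) + c * d * w (a * b) := by
      intro a
      ring
    rw [Finset.sum_congr rfl fun a _ => h5 a, Finset.sum_add_distrib, Finset.sum_sub_distrib,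
      ← Finset.mul_sum, ← Finset.mul_sum, hb2, hb1, hbs]
    ring
  have h6 : M ∣ c * d * (Fintype.card L : ℤ) := by
    rw [← h4]
    refine Finset.dvd_sum fun a _ => ?_
    by_cases ha : a = 0
    · rw [ha, zero_mul, hw0, mul_zero]
      exact dvd_zero _
    · refine Dvd.dvd.mul_right ?_ _
      have := h a ha
      have h7 : (w a - c) * (w a - d) = w a ^ 2 - (c + d) * w a + c * d := by ring
      rwa [h7] at this
  have h7 : M ∣ c * d := hMq.dvd_of_dvd_mul_right h6
  refine ⟨h7, ?_⟩
  have h8 : ∑ a ∈ univ.erase (0 : L), (w a - c) * (w a - d)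
      = (Fintype.card L : ℤ) * ((Fintype.card L : ℤ) - (c + d))
        + c * d * ((Fintype.card L : ℤ) - 1) := by
    have h9 := Finset.add_sum_erase univ (fun a : L => (w a - c) * (w a - d)) (mem_univ 0)
    have h10 : ∑ a : L, (w a - c) * (w a - d)
        = (Fintype.card L : ℤ) ^ 2 - (c + d) * (Fintype.card L : ℤ)
          + c * d * (Fintype.card L : ℤ) := by
      have h11 : ∀ a : L, (w a - c) * (w a - d) = w a ^ 2 - (c + d) * w a + c * d := by
        intro a
        ring
      rw [Finset.sum_congr rfl fun a _ => h11 a, Finset.sum_add_distrib, Finset.sum_sub_distrib,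
        ← Finset.mul_sum, m1, m2, Finset.sum_const, Finset.card_univ, nsmul_eq_mul]
      ring
    rw [h10] at h9
    simp only [hw0] at h9
    linear_combination h9
  have h12 : M ∣ (Fintype.card L : ℤ) * ((Fintype.card L : ℤ) - (c + d))
      + c * d * ((Fintype.card L : ℤ) - 1) := by
    rw [← h8]
    exact Finset.dvd_sum fun a ha => h a (Finset.ne_of_mem_erase ha)
  have h13 : M ∣ (Fintype.card L : ℤ) * ((Fintype.card L : ℤ) - (c + d)) :=
    (dvd_add_left (h7.mul_right _)).1 h12
  exact hMq.dvd_of_dvd_mul_left h13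

end Pool.Agent.Lib.HelQ
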